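import Pool.Agent.H.MP_08245e_co.F

namespace Pool.Agent.Results.MP_08245e_co.Yes

/-- the distance matrix of a graph: entry `(u, v)` is the graph distance from `u` to `v` -/
noncomputable def distMatrix {V : Type} (G : SimpleGraph V) : Matrix V V ℝ :=
  Matrix.of fun u v : V => (G.dist u v : ℝ)

/-- `G` is connected and, for vertices `x, y` at distance `i`, the vertex `y` has exactly `c i`
neighbours at distance `i - 1` from `x` and exactly `b i` neighbours at distance `i + 1` from `x` -/
def IsDistanceRegular {V : Type} (G : SimpleGraph V) : Prop :=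
  G.Connected ∧ ∃ b c : ℕ → ℕ, ∀ x y : V,
    {z | G.Adj y z ∧ G.dist x z + 1 = G.dist x y}.ncard = c (G.dist x y) ∧
      {z | G.Adj y z ∧ G.dist x z = G.dist x y + 1}.ncard = b (G.dist x y)

theorem result :
    ∃ (V W : Type) (_ : Fintype V) (_ : DecidableEq V) (_ : Fintype W) (_ : DecidableEq W)
      (G : SimpleGraph V) (H : SimpleGraph W),
      IsDistanceRegular G ∧ H.Connected ∧ ¬ IsDistanceRegular H ∧
        (distMatrix G).charpoly = (distMatrix H).charpoly :=
  H.MP_08245e_co.main

end Pool.Agent.Results.MP_08245e_co.Yes
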